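import Pool.Agent.H295R2.MK.Defs
import Pool.Agent.H306R2.Karamata2
import Pool.Agent.H676R2.EM_MA
import Pool.Agent.H403R2.EM_MB
import Pool.Agent.H207R2.EM_MC

set_option autoImplicit false

/-! Task A4 of helper295's project MK: the limit theorem for `W4`. -/

namespace H55MK

open Finset Filter Topology MeasureTheory Complex
open Pool.Agent.H306R2 H295MK

theorem const_eq (h3 : Loc4) (j : ℕ) (hj : 1 ≤ j) :
    (∏' p : Nat.Primes, ((1 - 1 / (p : ℝ)) ^ (∑ _i : Fin 4, j ^ 2) * ∑' v : Fin 4 → ℕ, lam4 j p v)) =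
      aF (2 * j) := by
  unfold aF
  refine tprod_congr fun p => ?_
  rw [h3 j p hj p.2]
  congr 1
  have e1 : (∑ _i : Fin 4, j ^ 2) = 4 * j ^ 2 := by simp
  have e2 : (2 * (j : ℝ)) ^ 2 = ((4 * j ^ 2 : ℕ) : ℝ) := by push_cast; ring
  rw [e1, e2, Real.rpow_natCast]

theorem kar4 (h1 : W4mw) (h2 : LW4) (h3 : Loc4) : Kar4 := by
  intro j φ M hj hφ hM h0
  have hW : W4 j = Pool.Agent.H223.EM.mw (lam4 j) := funext fun b => h1 j b hj
  obtain ⟨HK, hlim⟩ := Pool.Agent.H207R2.EM.MEP (r := 4) (by norm_num) (fun _ => j ^ 2) (lam4 j)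
    (h2 j hj) (Pool.Agent.H676R2.EM.mw_euler (by norm_num) (fun _ => j ^ 2) (lam4 j) (h2 j hj))
    (Pool.Agent.H403R2.EMMB.mw_prod_lim (by norm_num) (fun _ => j ^ 2) (lam4 j) (h2 j hj))
  rw [← hW] at HK
  have hj0 : (0 : ℝ) < j := by exact_mod_cast hj
  have hK : ((∑ _i : Fin 4, j ^ 2 : ℕ) : ℝ) = 4 * (j : ℝ) ^ 2 := by
    push_cast
    simp
  have hA : 0 ≤ aF (2 * (j : ℝ)) := (aF_pos (by positivity)).le
  refine karamata HK (4 * (j : ℝ) ^ 2) (aF (2 * (j : ℝ))) hA (m4 j) (fun i => by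
    unfold m4
    positivity) (fun s hs => ?_) φ hφ M h0 hM
  have h := hlim s hs
  rw [const_eq h3 j hj, hK, ← hW] at h
  have e3 : (∏ i, (s i) ^ (-(((fun _ : Fin 4 => j ^ 2) i : ℕ) : ℝ))) = ∏ i, (s i) ^ (-(m4 j i)) := by
    refine Finset.prod_congr rfl fun i _ => ?_
    unfold m4
    push_cast
    rfl
  rw [e3] at h
  exact h

end H55MK
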