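import Pool.Agent.Helper294.PD3Kl

/-! The group of the flat 3-manifold `Kb × S¹` (`Kb` the Klein bottle) is a three-dimensional
Poincare duality group. -/

set_option autoImplicit false

section part1
namespace Pool.Agent.H55R2.Flat

open Pool.Agent.Helper294.PD3Nil Finsupp

/-- elements `z^a x^b t^c` of the group `⟨z, x, t | zx = xz, zt = tz, txt⁻¹ = x⁻¹⟩` -/
@[ext] structure Fl where
  a : ℤ
  b : ℤ
  c : ℤ
deriving DecidableEq

namespace Fl

instance : Mul Fl := ⟨fun g h => ⟨g.a + h.a, g.b + sg g.c * h.b, g.c + h.c⟩⟩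
instance : One Fl := ⟨⟨0, 0, 0⟩⟩
instance : Inv Fl := ⟨fun g => ⟨- g.a, - sg g.c * g.b, -g.c⟩⟩

@[simp] lemma mul_a (g h : Fl) : (g * h).a = g.a + h.a := rfl
@[simp] lemma mul_b (g h : Fl) : (g * h).b = g.b + sg g.c * h.b := rfl
@[simp] lemma mul_c (g h : Fl) : (g * h).c = g.c + h.c := rfl
@[simp] lemma one_a : (1 : Fl).a = 0 := rfl
@[simp] lemma one_b : (1 : Fl).b = 0 := rfl
@[simp] lemma one_c : (1 : Fl).c = 0 := rfl
@[simp] lemma inv_a (g : Fl) : (g⁻¹).a = - g.a := rfl
@[simp] lemma inv_b (g : Fl) : (g⁻¹).b = - sg g.c * g.b := rfl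
@[simp] lemma inv_c (g : Fl) : (g⁻¹).c = - g.c := rfl

instance : Group Fl := Group.ofLeftAxioms
  (by
    intro g h k
    ext
    · simp only [mul_a]; ring
    · simp only [mul_b, mul_c, sg_add]; ring
    · simp only [mul_c]; ring)
  (by
    intro g
    ext <;> simp)
  (by
    intro g
    ext
    · simp
    · simp only [mul_b, inv_b, inv_c, sg_neg, one_b]; ring
    · simp)

end Fl

abbrev R : Type := MonoidAlgebra ℤ Fl

def zz : Fl := ⟨1, 0, 0⟩
def xx : Fl := ⟨0, 1, 0⟩
def tt : Fl := ⟨0, 0, 1⟩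

@[simp] lemma zz_a : zz.a = 1 := rfl
@[simp] lemma zz_b : zz.b = 0 := rfl
@[simp] lemma zz_c : zz.c = 0 := rfl
@[simp] lemma xx_a : xx.a = 0 := rfl
@[simp] lemma xx_b : xx.b = 1 := rfl
@[simp] lemma xx_c : xx.c = 0 := rfl
@[simp] lemma tt_a : tt.a = 0 := rfl
@[simp] lemma tt_b : tt.b = 0 := rfl
@[simp] lemma tt_c : tt.c = 1 := rfl

/-- group elements in the group ring -/
noncomputable def el (g : Fl) : R := MonoidAlgebra.single g 1

lemma el_mul (g h : Fl) : el g * el h = el (g * h) := by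
  simp [el, MonoidAlgebra.single_mul_single]

lemma el_one : el 1 = 1 := rfl

lemma coeff_el_mul (g : Fl) (m : R) : (el g * m).coeff = mapDomain (fun h => g * h) m.coeff := by
  induction m using MonoidAlgebra.induction_linear with
  | zero => simp
  | add x y hx hy => rw [mul_add, MonoidAlgebra.coeff_add, hx, hy, MonoidAlgebra.coeff_add, mapDomain_add]
  | single h r => simp [el, MonoidAlgebra.single_mul_single, mapDomain_single]

lemma coeff_mul_el (g : Fl) (m : R) : (m * el g).coeff = mapDomain (fun h => h * g) m.coeff := by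
  induction m using MonoidAlgebra.induction_linear with
  | zero => simp
  | add x y hx hy => rw [add_mul, MonoidAlgebra.coeff_add, hx, hy, MonoidAlgebra.coeff_add, mapDomain_add]
  | single h r => simp [el, MonoidAlgebra.single_mul_single, mapDomain_single]

/-- left multiplication by `g - 1` -/
noncomputable def dl (g : Fl) : R →+ R := AddMonoidHom.mulLeft (el g - 1)
/-- right multiplication by `g - 1` -/
noncomputable def dr (g : Fl) : R →+ R := AddMonoidHom.mulRight (el g - 1)

lemma dl_apply (g : Fl) (m : R) : dl g m = (el g - 1) * m := rfl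
lemma dr_apply (g : Fl) (m : R) : dr g m = m * (el g - 1) := rfl

lemma coeff_dl (g : Fl) (m : R) : (dl g m).coeff = sh (fun h => g * h) m.coeff := by
  rw [dl_apply, sub_mul, one_mul, sh_apply, ← coeff_el_mul]; rfl

lemma coeff_dr (g : Fl) (m : R) : (dr g m).coeff = sh (fun h => h * g) m.coeff := by
  rw [dr_apply, mul_sub, mul_one, sh_apply, ← coeff_mul_el]; rfl

noncomputable def q1 : R →+ (ℤ × ℤ →₀ ℤ) :=
  (mapDomain.addMonoidHom (fun g : Fl => (g.b, g.c))).comp MonoidAlgebra.coeffAddEquiv.toAddMonoidHom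

lemma q1_apply (m : R) : q1 m = mapDomain (fun g : Fl => (g.b, g.c)) m.coeff := rfl

lemma q1_surj : Function.Surjective q1 := by
  intro m
  refine ⟨MonoidAlgebra.ofCoeff (mapDomain (fun p : ℤ × ℤ => (⟨0, p.1, p.2⟩ : Fl)) m), ?_⟩
  rw [q1_apply, MonoidAlgebra.coeff_ofCoeff, ← mapDomain_comp]
  exact mapDomain_id

lemma el_ext {m n : R} (h : m.coeff = n.coeff) : m = n := MonoidAlgebra.coeff_inj.1 h

/-- the tower for left multiplication -/
noncomputable def TL : Tower R (ℤ × ℤ →₀ ℤ) (ℤ →₀ ℤ) where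
  D1 := dl zz
  D2 := dl xx
  D3 := dl tt
  E2 := sh (fun p => (p.1 + 1, p.2))
  E3 := sh (fun c => c + 1)
  p1 := q1
  p2 := q2
  p3 := q3
  inj1 := by
    intro m n h
    apply el_ext
    apply sh_injective (fun h => zz * h) (mul_right_injective zz) (fun g => g.a)
      (by intro s; simp; ring)
    rw [← coeff_dl, ← coeff_dl, h]
  inj2 := sh_injective _ (by rintro ⟨a, b⟩ ⟨c, d⟩ h; simpa using h) (fun p => p.1) (fun _ => rfl)
  inj3 := sh_injective _ (add_left_injective 1) (fun c => c) (fun _ => rfl)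
  z1 m := by rw [q1_apply, coeff_dl]; exact map_sh _ _ (by intro s; simp) _
  z2 m := by rw [q2_apply]; exact map_sh _ _ (by intro s; rfl) _
  ex1 m hm := by
    obtain ⟨k, hk⟩ := sh_ker' (Equiv.mulLeft zz) (fun g : Fl => (g.b, g.c)) (fun p => ⟨0, p.1, p.2⟩)
      (fun g => g.a) (by intro s; simp; ring) (by intro s; simp) (fun _ => rfl) (fun _ => rfl)
      (by
        intro s u h1 h2
        simp only [Prod.mk.injEq] at h1
        exact Fl.ext h2 h1.1 h1.2) m.coeff hm
    exact ⟨MonoidAlgebra.ofCoeff k, el_ext (by rw [coeff_dl]; exact hk)⟩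
  ex2 m hm := by
    exact sh_ker' (S := ℤ × ℤ) ((Equiv.addRight (1 : ℤ)).prodCongr (Equiv.refl ℤ)) (fun p => p.2) (fun c => (0, c))
      (fun p => p.1) (fun s => rfl) (fun s => rfl) (fun _ => rfl) (fun _ => rfl)
      (fun s u h1 h2 => Prod.ext h2 h1) m hm
  ex3 := ex_three
  s1 := q1_surj
  s2 := q2_surj
  c2 m := by rw [q1_apply, q1_apply, coeff_dl]; exact map_sh_comm _ _ _ (by intro s; simp [add_comm]) _
  c3 m := by
    rw [q1_apply, q1_apply, q2_apply, q2_apply, coeff_dl, ← mapDomain_comp, ← mapDomain_comp]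
    exact map_sh_comm _ _ _ (by intro s; simp [add_comm]) _

/-- the tower for right multiplication -/
noncomputable def TR : Tower R (ℤ × ℤ →₀ ℤ) (ℤ →₀ ℤ) where
  D1 := dr zz
  D2 := dr xx
  D3 := dr tt
  E2 := sh (fun p => (p.1 + sg p.2, p.2))
  E3 := sh (fun c => c + 1)
  p1 := q1
  p2 := q2
  p3 := q3
  inj1 := by
    intro m n h
    apply el_ext
    apply sh_injective (fun h => h * zz) (mul_left_injective zz) (fun g => g.a)
      (by intro s; simp)
    rw [← coeff_dr, ← coeff_dr, h]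
  inj2 := sh_injective _ (by
      rintro ⟨a, b⟩ ⟨c, d⟩ h
      simp only [Prod.mk.injEq] at h
      obtain ⟨h1, rfl⟩ := h
      simpa using h1) (fun p => sg p.2 * p.1)
    (by intro s; have := sg_mul_self s.2; linear_combination this)
  inj3 := sh_injective _ (add_left_injective 1) (fun c => c) (fun _ => rfl)
  z1 m := by rw [q1_apply, coeff_dr]; exact map_sh _ _ (by intro s; simp) _
  z2 m := by rw [q2_apply]; exact map_sh _ _ (by intro s; rfl) _
  ex1 m hm := by
    obtain ⟨k, hk⟩ := sh_ker' (Equiv.mulRight zz) (fun g : Fl => (g.b, g.c)) (fun p => ⟨0, p.1, p.2⟩)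
      (fun g => g.a) (by intro s; simp)
      (by intro s; simp) (fun _ => by simp) (fun _ => rfl)
      (by
        intro s u h1 h2
        simp only [Prod.mk.injEq] at h1
        exact Fl.ext h2 h1.1 h1.2) m.coeff hm
    exact ⟨MonoidAlgebra.ofCoeff k, el_ext (by rw [coeff_dr]; exact hk)⟩
  ex2 m hm := by
    let σ : Equiv.Perm (ℤ × ℤ) :=
      { toFun := fun p => (p.1 + sg p.2, p.2)
        invFun := fun p => (p.1 - sg p.2, p.2)
        left_inv := fun p => by simp
        right_inv := fun p => by simp }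
    exact sh_ker' σ (fun p => p.2) (fun c => (0, c))
      (fun p => sg p.2 * p.1) (by intro s; have := sg_mul_self s.2; simp only [σ, Equiv.coe_fn_mk]; linear_combination this)
      (fun s => rfl) (fun _ => by simp) (fun _ => rfl)
      (by
        intro s u h1 h2
        have h3 : s.1 = u.1 := by
          have e1 := sg_mul_self s.2
          rw [← h1] at h2
          linear_combination sg s.2 * h2 - (s.1 - u.1) * e1
        exact Prod.ext h3 h1) m hm
  ex3 := ex_three
  s1 := q1_surj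
  s2 := q2_surj
  c2 m := by rw [q1_apply, q1_apply, coeff_dr]; exact map_sh_comm _ _ _ (by intro s; simp) _
  c3 m := by
    rw [q1_apply, q1_apply, q2_apply, q2_apply, coeff_dr, ← mapDomain_comp, ← mapDomain_comp]
    exact map_sh_comm _ _ _ (by intro s; simp) _

noncomputable def Z : R := el zz
noncomputable def Zi : R := el zz⁻¹
noncomputable def X : R := el xx
noncomputable def Xi : R := el xx⁻¹
noncomputable def T : R := el tt

lemma X_Xi : X * Xi = 1 := by rw [X, Xi, el_mul, mul_inv_cancel, el_one]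
lemma Xi_X : Xi * X = 1 := by rw [X, Xi, el_mul, inv_mul_cancel, el_one]
lemma X_Z : X * Z = Z * X := by rw [Z, X, el_mul, el_mul]; congr 1
lemma T_Z : T * Z = Z * T := by rw [Z, T, el_mul, el_mul]; congr 1
lemma T_X : T * X = Xi * T := by rw [X, Xi, T, el_mul, el_mul]; congr 1
lemma Z_Xi : Z * Xi = Xi * Z := by rw [Z, Xi, el_mul, el_mul]; congr 1

lemma I1 : (T - 1) * (Z - 1) + (1 - Z) * (T - 1) = 0 := by
  linear_combination (norm := noncomm_ring) T_Z
lemma I2 : (T + Xi) * (X - 1) + (1 - Xi) * (T - 1) = 0 := by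
  linear_combination (norm := noncomm_ring) T_X + Xi_X
lemma I3 : (X - 1) * (Z - 1) = (Z - 1) * (X - 1) := by
  linear_combination (norm := noncomm_ring) X_Z
lemma I5 : (T + Xi) * (Z - 1) = (Z - 1) * (T + Xi) := by
  linear_combination (norm := noncomm_ring) T_Z - Z_Xi
lemma I6 : (1 - Xi) * (Z - 1) = (Z - 1) * (1 - Xi) := by
  linear_combination (norm := noncomm_ring) Z_Xi

/-- the augmentation -/
noncomputable def aug : R →+ ℤ := q3.comp (q2.comp q1)

lemma rr1 {m : R} (h : m * (Z - 1) = 0) : m = 0 := TR.r1 h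
lemma rr2 {m n : R} (h : m * (X - 1) = n * (Z - 1)) : ∃ k, m = k * (Z - 1) := by
  obtain ⟨k, hk⟩ := TR.r2 (m := m) (n := n) h
  exact ⟨k, hk.symm⟩
lemma rr3 {m a b : R} (h : m * (T - 1) = a * (Z - 1) + b * (X - 1)) :
    ∃ c d, m = c * (Z - 1) + d * (X - 1) := TR.r3 (m := m) (a := a) (b := b) h
lemma rr4 {m : R} (h : aug m = 0) : ∃ a b c, m = a * (Z - 1) + b * (X - 1) + c * (T - 1) :=
  TR.r4 (m := m) h

lemma ll1 {m : R} (h : (Z - 1) * m = 0) : m = 0 := TL.r1 h
lemma ll2 {m n : R} (h : (X - 1) * m = (Z - 1) * n) : ∃ k, m = (Z - 1) * k := by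
  obtain ⟨k, hk⟩ := TL.r2 (m := m) (n := n) h
  exact ⟨k, hk.symm⟩
lemma ll3 {m a b : R} (h : (T - 1) * m = (Z - 1) * a + (X - 1) * b) :
    ∃ c d, m = (Z - 1) * c + (X - 1) * d := TL.r3 (m := m) (a := a) (b := b) h
lemma ll4 {m : R} (h : aug m = 0) : ∃ a b c, m = (Z - 1) * a + (X - 1) * b + (T - 1) * c :=
  TL.r4 (m := m) h

/-! ### right exactness -/

lemma exF1 {a b c : R} (h : a * (Z - 1) + b * (X - 1) + c * (T - 1) = 0) :
    ∃ e1 e2 e3, a = e1 * (X - 1) + e2 * (T - 1) ∧ b = -e1 * (Z - 1) + e3 * (T + Xi) ∧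
      c = e2 * (1 - Z) + e3 * (1 - Xi) := by
  obtain ⟨c1, c2, hc⟩ := rr3 (m := c) (a := -a) (b := -b) (by
    linear_combination (norm := noncomm_ring) h)
  have hc' : c = (-c1) * (1 - Z) + (c2 * X) * (1 - Xi) := by
    linear_combination (norm := noncomm_ring) hc + c2 * X_Xi
  obtain ⟨k, hk⟩ := rr2 (m := b - (c2 * X) * (T + Xi)) (n := -(a - (-c1) * (T - 1))) (by
    linear_combination (norm := noncomm_ring) h - hc' * (T - 1) - (-c1) * I1 - (c2 * X) * I2)
  have h1 : a - (-c1) * (T - 1) + k * (X - 1) = 0 := by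
    apply rr1
    linear_combination (norm := noncomm_ring) h - hc' * (T - 1) - (-c1) * I1 - (c2 * X) * I2 - hk * (X - 1) + k * I3
  refine ⟨-k, -c1, c2 * X, ?_, ?_, hc'⟩
  · linear_combination (norm := noncomm_ring) h1
  · linear_combination (norm := noncomm_ring) hk

lemma exF2 {e1 e2 e3 : R} (h1 : e1 * (X - 1) + e2 * (T - 1) = 0)
    (h2 : -e1 * (Z - 1) + e3 * (T + Xi) = 0) (h3 : e2 * (1 - Z) + e3 * (1 - Xi) = 0) :
    ∃ f, e1 = f * (T + Xi) ∧ e2 = f * (1 - Xi) ∧ e3 = f * (Z - 1) := by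
  obtain ⟨g, hg⟩ := rr2 (m := e3 * Xi) (n := e2) (by
    linear_combination (norm := noncomm_ring) h3 + e3 * Xi_X)
  have h4 : e3 = (g * X) * (Z - 1) := by
    linear_combination (norm := noncomm_ring) hg * X - e3 * Xi_X - g * X_Z
  have h5 : e2 - (g * X) * (1 - Xi) = 0 := by
    apply rr1
    linear_combination (norm := noncomm_ring) -h3 + h4 * (1 - Xi) - (g * X) * I6
  have h6 : e1 - (g * X) * (T + Xi) = 0 := by
    apply rr1
    linear_combination (norm := noncomm_ring) -h2 + h4 * (T + Xi) - (g * X) * I5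
  exact ⟨g * X, by linear_combination (norm := noncomm_ring) h6,
    by linear_combination (norm := noncomm_ring) h5, h4⟩

lemma exF3 {f : R} (h : f * (Z - 1) = 0) : f = 0 := rr1 h

/-! ### left multiplication: the dual complex -/

lemma coC1 {a b c : R} (h1 : (X - 1) * a - (Z - 1) * b = 0) (h2 : (T - 1) * a + (1 - Z) * c = 0) :
    ∃ m, a = (Z - 1) * m ∧ b = (X - 1) * m ∧ c = (T - 1) * m := by
  obtain ⟨m, hm⟩ := ll2 (m := a) (n := b) (by linear_combination (norm := noncomm_ring) h1)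
  have h3 : b - (X - 1) * m = 0 := by
    apply ll1
    linear_combination (norm := noncomm_ring) -h1 + (X - 1) * hm + I3 * m
  have h4 : c - (T - 1) * m = 0 := by
    apply ll1
    linear_combination (norm := noncomm_ring) -h2 + (T - 1) * hm + I1 * m
  exact ⟨m, hm, by linear_combination (norm := noncomm_ring) h3, by linear_combination (norm := noncomm_ring) h4⟩

/-- the automorphism of the group ring given by the orientation character -/
noncomputable def τ : R →+* R := MonoidAlgebra.lift ℤ R Fl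
  { toFun := fun g => MonoidAlgebra.single g (sg g.c)
    map_one' := by simp [MonoidAlgebra.one_def]
    map_mul' := by
      intro g h
      rw [MonoidAlgebra.single_mul_single, Fl.mul_c, sg_add] }

lemma τ_single (g : Fl) (r : ℤ) : τ (MonoidAlgebra.single g r) = MonoidAlgebra.single g (r * sg g.c) := by
  have : τ (MonoidAlgebra.single g r) = r • (MonoidAlgebra.single g (sg g.c) : R) :=
    MonoidAlgebra.lift_single _ _ _
  rw [this]
  simp

lemma τ_τ (m : R) : τ (τ m) = m := by
  induction m using MonoidAlgebra.induction_linear with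
  | zero => simp
  | add x y hx hy => rw [map_add, map_add, hx, hy]
  | single g r => rw [τ_single, τ_single, mul_assoc, sg_mul_self, mul_one]

lemma τ_Z : τ Z = Z := by rw [Z, el, τ_single]; simp
lemma τ_X : τ X = X := by rw [X, el, τ_single]; simp
lemma τ_Xi : τ Xi = Xi := by rw [Xi, el, τ_single]; simp
lemma τ_T : τ T = -T := by
  rw [T, el, τ_single, tt_c, sg_one]
  simp

lemma J1 : -(T - Xi) * (X - 1) + (1 - Xi) * (-T - 1) = 0 := by
  linear_combination (norm := noncomm_ring) -T_X + Xi_X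

lemma J2 : (T - Xi) * (Z - 1) = (Z - 1) * (T - Xi) := by
  linear_combination (norm := noncomm_ring) T_Z + Z_Xi

lemma coC2' {e1 e2 e3 : R} (h : -(T - Xi) * e1 + (1 - Xi) * e2 + (Z - 1) * e3 = 0) :
    ∃ a b c, e1 = (X - 1) * a - (Z - 1) * b ∧ e2 = (-T - 1) * a + (1 - Z) * c ∧
      e3 = (-T + Xi) * b + (1 - Xi) * c := by
  obtain ⟨c', a, h1⟩ := ll3 (m := e1) (a := e3) (b := Xi * (e2 - e1)) (by
    linear_combination (norm := noncomm_ring) -h - X_Xi * (e2 - e1))
  have h1' : e1 = (X - 1) * a - (Z - 1) * (-c') := by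
    linear_combination (norm := noncomm_ring) h1
  obtain ⟨g, hg⟩ := ll2 (m := Xi * (e2 + (T + 1) * a)) (n := -(e3 - (-T + Xi) * (-c'))) (by
    linear_combination (norm := noncomm_ring) h + (T - Xi) * h1' - J1 * a - J2 * (-c')
      + X_Xi * (e2 + (T + 1) * a))
  have h2 : e2 + (T + 1) * a = (1 - Z) * (-(X * g)) := by
    linear_combination (norm := noncomm_ring) X * hg - X_Xi * (e2 + (T + 1) * a) + X_Z * g
  have h3 : e3 - (-T + Xi) * (-c') - (1 - Xi) * (-(X * g)) = 0 := by
    apply ll1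
    linear_combination (norm := noncomm_ring) h + (T - Xi) * h1' - J1 * a - J2 * (-c')
      - (1 - Xi) * h2 - I6 * (X * g)
  exact ⟨a, -c', -(X * g), h1', by linear_combination (norm := noncomm_ring) h2,
    by linear_combination (norm := noncomm_ring) h3⟩

lemma coC2 {e1 e2 e3 : R} (h : (T + Xi) * e1 + (1 - Xi) * e2 + (Z - 1) * e3 = 0) :
    ∃ a b c, e1 = (X - 1) * a - (Z - 1) * b ∧ e2 = (T - 1) * a + (1 - Z) * c ∧
      e3 = (T + Xi) * b + (1 - Xi) * c := by
  have h1 := congrArg τ h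
  simp only [map_add, map_mul, map_sub, map_one, map_zero, τ_Z, τ_Xi, τ_T] at h1
  obtain ⟨a, b, c, h2, h3, h4⟩ := coC2' (e1 := τ e1) (e2 := τ e2) (e3 := τ e3) (by
    linear_combination (norm := noncomm_ring) h1)
  refine ⟨τ a, τ b, τ c, ?_, ?_, ?_⟩
  · rw [← τ_τ e1, h2]
    simp only [map_mul, map_sub, map_one, τ_Z, τ_X]
  · rw [← τ_τ e2, h3]
    simp only [map_mul, map_sub, map_add, map_neg, map_one, τ_Z, τ_T, neg_neg]
  · rw [← τ_τ e3, h4]
    simp only [map_mul, map_sub, map_add, map_neg, map_one, τ_Xi, τ_T, neg_neg]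

/-- the twisted augmentation -/
noncomputable def augs : R →+ ℤ := aug.comp τ.toAddMonoidHom

lemma augs_apply (m : R) : augs m = aug (τ m) := rfl

lemma coC3 {m : R} (h : augs m = 0) :
    ∃ e1 e2 e3, m = (T + Xi) * e1 + (1 - Xi) * e2 + (Z - 1) * e3 := by
  obtain ⟨a, b, c, hm⟩ := ll4 (m := τ m) h
  have h1 : τ m = (-T + Xi) * (-c) + (1 - Xi) * (X * b + (-c)) + (Z - 1) * a := by
    linear_combination (norm := noncomm_ring) hm + Xi_X * b
  refine ⟨τ (-c), τ (X * b + (-c)), τ a, ?_⟩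
  rw [← τ_τ m, h1]
  simp only [map_mul, map_sub, map_add, map_neg, map_one, τ_Xi, τ_T, τ_Z, neg_neg]

end Pool.Agent.H55R2.Flat
end part1
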