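import Pool.Agent.Helper294.PD3Nil

/-! From matrices over the group ring to Poincare duality groups. -/

set_option autoImplicit false

namespace Pool.Agent.H55R2.Gen

open CategoryTheory Finsupp Pool.Agent.Helper294.PD3Nil

/-- `G` is a Poincaré duality group of dimension `n`: the trivial module `ℤ` has a resolution of
finite length by finitely generated projective `ℤ[G]`-modules (type `FP`), `H^i(G; ℤ[G]) = 0` for
`i ≠ n`, and `H^n(G; ℤ[G])` is isomorphic to `ℤ` as an abelian group. -/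
def PD (n : ℕ) (G : Type) [Group G] : Prop :=
  (∃ (P : ℕ → Type) (_ : ∀ i, AddCommGroup (P i)) (_ : ∀ i, Module (MonoidAlgebra ℤ G) (P i))
    (d : ∀ i, P (i + 1) →ₗ[MonoidAlgebra ℤ G] P i) (ε : P 0 →+ ℤ) (m : ℕ),
    (∀ i, Module.Finite (MonoidAlgebra ℤ G) (P i)) ∧
    (∀ i, Module.Projective (MonoidAlgebra ℤ G) (P i)) ∧
    (∀ i, m < i → Subsingleton (P i)) ∧
    Function.Surjective ε ∧
    (∀ (g : G) (x : P 0), ε (MonoidAlgebra.of ℤ G g • x) = ε x) ∧
    (∀ x : P 0, ε x = 0 ↔ x ∈ LinearMap.range (d 0)) ∧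
    (∀ (i : ℕ) (x : P (i + 1)), d i x = 0 ↔ x ∈ LinearMap.range (d (i + 1)))) ∧
  (∀ i : ℕ, i ≠ n → Subsingleton (groupCohomology (Rep.leftRegular ℤ G) i)) ∧
  Nonempty (groupCohomology (Rep.leftRegular ℤ G) n ≃+ ℤ)

variable {G : Type} [Group G]
variable {m : ℕ → ℕ} {A : ∀ n, Fin (m (n + 1)) → Fin (m n) → MonoidAlgebra ℤ G}

variable (G) in
noncomputable abbrev RG : Rep ℤ G := Rep.leftRegular ℤ G

lemma RG_asAlgebraHom (r : MonoidAlgebra ℤ G) (x : RG G) :
    (RG G).ρ.asAlgebraHom r x = (r * x : MonoidAlgebra ℤ G) :=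
  Representation.asAlgebraHom_ofMulAction_smul_eq_mul r x

/-- value of a morphism on a basis vector -/
noncomputable def vl {n : ℕ} (x : XX ℤ G m n ⟶ RG G) (i : Fin (m n)) : MonoidAlgebra ℤ G :=
  x.hom (single i (MonoidAlgebra.single 1 1))

lemma vl_comp {n : ℕ} (y : XX ℤ G m n ⟶ RG G) (x : XX ℤ G m (n + 1) ⟶ RG G) :
    dd m A n ≫ y = x ↔ ∀ i, ∑ j, A n i j * vl y j = vl x i := by
  rw [comp_eq_iff]
  refine forall_congr' fun i => ?_
  have : ∑ j, (RG G).ρ.asAlgebraHom (A n i j) (y.hom (single j (MonoidAlgebra.single 1 1))) =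
      ∑ j, A n i j * vl y j :=
    Finset.sum_congr rfl fun j _ => RG_asAlgebraHom _ _
  rw [this]; rfl

lemma vl_zero_iff {n : ℕ} (x : XX ℤ G m n ⟶ RG G) : x = 0 ↔ ∀ i, vl x i = 0 :=
  hom_eq_zero_iff (RG G) n x

lemma vl_zero {n : ℕ} (i : Fin (m n)) : vl (0 : XX ℤ G m n ⟶ RG G) i = 0 :=
  (vl_zero_iff _).1 rfl i

/-- morphism with given values -/
noncomputable def mo (n : ℕ) (F : Fin (m n) → MonoidAlgebra ℤ G) : XX ℤ G m n ⟶ RG G :=
  Rep.freeLift ℤ G (RG G) F

lemma vl_mo (n : ℕ) (F : Fin (m n) → MonoidAlgebra ℤ G) (i : Fin (m n)) : vl (mo n F) i = F i :=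
  lift_single (RG G) n F i

lemma coh_zero (H : Good m A)
    (h : ∀ x : Fin (m 0) → MonoidAlgebra ℤ G, (∀ i, ∑ j, A 0 i j * x j = 0) → ∀ i, x i = 0) :
    Subsingleton (groupCohomology (RG G) 0) := by
  apply H.vanish_zero (RG G)
  intro x hx
  rw [vl_comp] at hx
  rw [vl_zero_iff]
  apply h
  intro i
  rw [hx i, vl_zero]

lemma coh_succ (H : Good m A) (n : ℕ)
    (h : ∀ x : Fin (m (n + 1)) → MonoidAlgebra ℤ G, (∀ i, ∑ j, A (n + 1) i j * x j = 0) →
      ∃ y : Fin (m n) → MonoidAlgebra ℤ G, ∀ i, ∑ j, A n i j * y j = x i) :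
    Subsingleton (groupCohomology (RG G) (n + 1)) := by
  apply H.vanish_succ (RG G)
  intro x hx
  rw [vl_comp] at hx
  obtain ⟨y, hy⟩ := h (fun j => vl x j) (by
    intro i
    rw [hx i, vl_zero])
  refine ⟨mo n y, ?_⟩
  rw [vl_comp]
  intro i
  rw [← hy i]
  refine Finset.sum_congr rfl fun j _ => ?_
  rw [vl_mo]

lemma coh_high (H : Good m A) (n : ℕ) (h : m (n + 1) = 0) :
    Subsingleton (groupCohomology (RG G) (n + 1)) := by
  apply coh_succ H n
  intro x _
  refine ⟨0, ?_⟩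
  intro i
  exact Fin.elim0 (Fin.cast h i)

lemma coh_top (H : Good m A) (n : ℕ) (hm : m (n + 2) = 0)
    (ψ : (Fin (m (n + 1)) → MonoidAlgebra ℤ G) →+ ℤ) (hs : Function.Surjective ψ)
    (h : ∀ x, ψ x = 0 ↔ ∃ y : Fin (m n) → MonoidAlgebra ℤ G, ∀ i, ∑ j, A n i j * y j = x i) :
    Nonempty (groupCohomology (RG G) (n + 1) ≃+ ℤ) := by
  let top : (XX ℤ G m (n + 1) ⟶ RG G) →ₗ[ℤ] ℤ :=
    { toFun := fun x => ψ (fun i => vl x i)
      map_add' := fun x y => (map_add ψ _ _)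
      map_smul' := fun c x => (map_zsmul ψ _ _) }
  obtain ⟨e⟩ := H.top (RG G) n (by
      intro x
      rw [vl_zero_iff]
      intro i
      exact Fin.elim0 (Fin.cast hm i)) top
    (by
      intro c
      obtain ⟨F, hF⟩ := hs c
      refine ⟨mo (n + 1) F, ?_⟩
      change ψ (fun i => vl (mo (n + 1) F) i) = c
      rw [← hF]
      congr 1
      funext i
      rw [vl_mo])
    (by
      intro x
      change ψ (fun i => vl x i) = 0 ↔ _
      rw [h]
      constructor
      · rintro ⟨y, hy⟩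
        refine ⟨mo n y, ?_⟩
        rw [vl_comp]
        intro i
        rw [← hy i]
        refine Finset.sum_congr rfl fun j _ => ?_
        rw [vl_mo]
      · rintro ⟨y, hy⟩
        rw [vl_comp] at hy
        exact ⟨fun j => vl y j, hy⟩)
  exact ⟨e.toAddEquiv⟩

/-- the resolution -/
lemma fp (H : Good m A) (N : ℕ) (hm : ∀ i, N < i → m i = 0) :
    ∃ (P : ℕ → Type) (_ : ∀ i, AddCommGroup (P i)) (_ : ∀ i, Module (MonoidAlgebra ℤ G) (P i))
    (d : ∀ i, P (i + 1) →ₗ[MonoidAlgebra ℤ G] P i) (ε : P 0 →+ ℤ) (m : ℕ),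
    (∀ i, Module.Finite (MonoidAlgebra ℤ G) (P i)) ∧
    (∀ i, Module.Projective (MonoidAlgebra ℤ G) (P i)) ∧
    (∀ i, m < i → Subsingleton (P i)) ∧
    Function.Surjective ε ∧
    (∀ (g : G) (x : P 0), ε (MonoidAlgebra.of ℤ G g • x) = ε x) ∧
    (∀ x : P 0, ε x = 0 ↔ x ∈ LinearMap.range (d 0)) ∧
    (∀ (i : ℕ) (x : P (i + 1)), d i x = 0 ↔ x ∈ LinearMap.range (d (i + 1))) := by
  let d : ∀ i : ℕ, (Fin (m (i + 1)) → MonoidAlgebra ℤ G) →ₗ[MonoidAlgebra ℤ G]
            (Fin (m i) → MonoidAlgebra ℤ G) := fun i =>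
    { toFun := fun x j => ∑ l, x l * A i l j
      map_add' := fun x y => by
        funext j
        simp only [Pi.add_apply, add_mul, Finset.sum_add_distrib]
      map_smul' := fun r x => by
        funext j
        simp only [Pi.smul_apply, smul_eq_mul, RingHom.id_apply, Finset.mul_sum, mul_assoc] }
  have hd : ∀ i x j, d i x j = ∑ l, x l * A i l j := fun _ _ _ => rfl
  let ε : (Fin (m 0) → MonoidAlgebra ℤ G) →+ ℤ :=
    { toFun := fun x => ∑ i, ag ℤ G (x i)
      map_zero' := by simp [ag_zero]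
      map_add' := fun x y => by simp only [Pi.add_apply, ag_add, Finset.sum_add_distrib] }
  have hε : ∀ x, ε x = ∑ i, ag ℤ G (x i) := fun _ => rfl
  refine ⟨fun i => Fin (m i) → MonoidAlgebra ℤ G, inferInstance, inferInstance, d, ε, N,
    fun i => inferInstance, fun i => inferInstance, ?_, ?_, ?_, ?_, ?_⟩
  · intro i hi
    have : IsEmpty (Fin (m i)) := by rw [hm i hi]; exact Fin.isEmpty
    infer_instance
  · intro c
    obtain ⟨f, hf⟩ := H.hε c
    exact ⟨f, hf⟩
  · intro g x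
    rw [hε, hε]
    refine Finset.sum_congr rfl fun i _ => ?_
    rw [Pi.smul_apply, smul_eq_mul, ag_mul, MonoidAlgebra.of_apply, ag_single, one_mul]
  · intro x
    rw [LinearMap.mem_range]
    constructor
    · intro hx
      obtain ⟨g, hg⟩ := H.hex0 (Finsupp.equivFunOnFinite.symm x) hx
      exact ⟨g, by funext j; rw [hd]; exact (hg j).symm⟩
    · rintro ⟨y, rfl⟩
      rw [hε]
      simp_rw [hd]
      have : ∀ j, ag ℤ G (∑ l, y l * A 0 l j) = ∑ l, ag ℤ G (y l) * ag ℤ G (A 0 l j) := by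
        intro j
        have h1 := map_sum (⟨⟨ag ℤ G, ag_zero⟩, ag_add⟩ : MonoidAlgebra ℤ G →+ ℤ)
          (fun l => y l * A 0 l j) Finset.univ
        refine h1.trans (Finset.sum_congr rfl fun l _ => ag_mul _ _)
      simp_rw [this]
      rw [Finset.sum_comm]
      refine Finset.sum_eq_zero fun l _ => ?_
      rw [← Finset.mul_sum, H.h0, mul_zero]
  · intro i x
    rw [LinearMap.mem_range]
    constructor
    · intro hx
      obtain ⟨g, hg⟩ := H.hex i (Finsupp.equivFunOnFinite.symm x) (by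
        intro l
        have := congrFun hx l
        rw [hd] at this
        exact this)
      exact ⟨g, by funext j; rw [hd]; exact (hg j).symm⟩
    · rintro ⟨y, rfl⟩
      funext l
      rw [hd]
      simp_rw [hd, Finset.sum_mul]
      rw [Finset.sum_comm]
      refine Finset.sum_eq_zero fun a _ => ?_
      simp_rw [mul_assoc]
      rw [← Finset.mul_sum, H.hA, mul_zero]

end Pool.Agent.H55R2.Gen
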