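import Pool.Agent.H55R2.Flat
import Pool.Agent.H55R2.Gen

/-! The group of `Kb × S¹` is a `PD_3`-group. -/

set_option autoImplicit false

namespace Pool.Agent.H55R2.Flat

open Pool.Agent.Helper294.PD3Nil (Good ag ag_zero ag_add ag_mul ag_single
  sh sh_apply sh_single sh_injective sh_ker' map_sh map_sh_comm q3 q2 ex_three sg sg_add sg_zero
  sg_one sg_mul_self sg_neg)
open Finsupp Pool.Agent.H55R2.Gen

/-- ranks of the free modules -/
def mm : ℕ → ℕ
  | 0 => 1
  | 1 => 3
  | 2 => 3
  | 3 => 1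
  | _ + 4 => 0

/-- the matrices of the differentials -/
noncomputable def Mx : ∀ n, Fin (mm (n + 1)) → Fin (mm n) → MonoidAlgebra ℤ Fl
  | 0 => ![![Z - 1], ![X - 1], ![T - 1]]
  | 1 => ![![X - 1, -(Z - 1), 0], ![T - 1, 0, 1 - Z], ![0, T + Xi, 1 - Xi]]
  | 2 => ![![T + Xi, 1 - Xi, Z - 1]]
  | _ + 3 => fun i => Fin.elim0 i

lemma aug_single (g : Fl) (r : ℤ) : aug (MonoidAlgebra.single g r) = r := by
  simp [aug, q1_apply, Pool.Agent.Helper294.PD3Nil.q2_apply,
    Pool.Agent.Helper294.PD3Nil.q3_apply, mapDomain_single]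

lemma ag_eq (r : R) : ag ℤ Fl r = aug r := by
  induction r using MonoidAlgebra.induction_linear with
  | zero => simp [ag_zero]
  | add x y hx hy => rw [ag_add, hx, hy, map_add]
  | single g r => rw [ag_single, aug_single]

lemma aug_mul (r s : R) : aug (r * s) = aug r * aug s := by
  rw [← ag_eq, ag_mul, ag_eq, ag_eq]

lemma aug_el (g : Fl) : aug (el g) = 1 := aug_single g 1
lemma aug_one : aug 1 = 1 := aug_single 1 1

lemma aZ : aug (Z - 1) = 0 := by rw [map_sub, aug_one, Z, aug_el, sub_self]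
lemma aX : aug (X - 1) = 0 := by rw [map_sub, aug_one, X, aug_el, sub_self]
lemma aT : aug (T - 1) = 0 := by rw [map_sub, aug_one, T, aug_el, sub_self]

/-- vector to finsupp -/
noncomputable def vec {n : ℕ} (f : Fin n → R) : Fin n →₀ R := Finsupp.equivFunOnFinite.symm f

lemma vec_apply {n : ℕ} (f : Fin n → R) (i : Fin n) : vec f i = f i := rfl

lemma good : Good mm Mx where
  hA := by
    intro n
    match n with
    | 0 =>
      intro (i : Fin 3) (l : Fin 1)
      change ∑ j : Fin 3, Mx 1 i j * Mx 0 j l = 0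
      rw [Fin.sum_univ_three]
      fin_cases l
      fin_cases i
      · change (X - 1) * (Z - 1) + -(Z - 1) * (X - 1) + 0 * (T - 1) = 0
        linear_combination (norm := noncomm_ring) I3
      · change (T - 1) * (Z - 1) + 0 * (X - 1) + (1 - Z) * (T - 1) = 0
        linear_combination (norm := noncomm_ring) I1
      · change 0 * (Z - 1) + (T + Xi) * (X - 1) + (1 - Xi) * (T - 1) = 0
        linear_combination (norm := noncomm_ring) I2
    | 1 =>
      intro (i : Fin 1) (l : Fin 3)
      change ∑ j : Fin 3, Mx 2 i j * Mx 1 j l = 0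
      rw [Fin.sum_univ_three]
      fin_cases i
      fin_cases l
      · change (T + Xi) * (X - 1) + (1 - Xi) * (T - 1) + (Z - 1) * 0 = 0
        linear_combination (norm := noncomm_ring) I2
      · change (T + Xi) * -(Z - 1) + (1 - Xi) * 0 + (Z - 1) * (T + Xi) = 0
        linear_combination (norm := noncomm_ring) -I5
      · change (T + Xi) * 0 + (1 - Xi) * (1 - Z) + (Z - 1) * (1 - Xi) = 0
        linear_combination (norm := noncomm_ring) -I6
    | 2 => intro i; exact Fin.elim0 i
    | n + 3 => intro i; exact Fin.elim0 i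
  h0 := by
    intro (i : Fin 3)
    change ∑ j : Fin 1, ag ℤ Fl (Mx 0 i j) = 0
    rw [Fin.sum_univ_one, ag_eq]
    fin_cases i
    · exact aZ
    · exact aX
    · exact aT
  hε := by
    intro x
    refine ⟨vec (n := 1) ![MonoidAlgebra.single 1 x], ?_⟩
    change ∑ i : Fin 1, ag ℤ Fl (vec (n := 1) ![MonoidAlgebra.single 1 x] i) = x
    rw [Fin.sum_univ_one, ag_eq]
    exact aug_single 1 x
  hex0 := by
    intro f hf
    change ∑ i : Fin 1, ag ℤ Fl (f i) = 0 at hf
    rw [Fin.sum_univ_one, ag_eq] at hf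
    obtain ⟨a, b, c, h⟩ := rr4 hf
    refine ⟨vec (n := 3) ![a, b, c], ?_⟩
    intro (j : Fin 1)
    change f j = ∑ i : Fin 3, vec (n := 3) ![a, b, c] i * Mx 0 i j
    rw [Fin.sum_univ_three]
    fin_cases j
    exact h
  hex := by
    intro n
    match n with
    | 0 =>
      intro f hf
      have hf := hf (0 : Fin 1)
      change ∑ j : Fin 3, f j * Mx 0 j (0 : Fin 1) = 0 at hf
      rw [Fin.sum_univ_three] at hf
      obtain ⟨e1, e2, e3, h1, h2, h3⟩ := exF1 hf
      refine ⟨vec (n := 3) ![e1, e2, e3], ?_⟩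
      intro (j : Fin 3)
      change f j = ∑ i : Fin 3, vec (n := 3) ![e1, e2, e3] i * Mx 1 i j
      rw [Fin.sum_univ_three]
      fin_cases j
      · change f (0 : Fin 3) = e1 * (X - 1) + e2 * (T - 1) + e3 * 0
        linear_combination (norm := noncomm_ring) h1
      · change f (1 : Fin 3) = e1 * -(Z - 1) + e2 * 0 + e3 * (T + Xi)
        linear_combination (norm := noncomm_ring) h2
      · change f (2 : Fin 3) = e1 * 0 + e2 * (1 - Z) + e3 * (1 - Xi)
        linear_combination (norm := noncomm_ring) h3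
    | 1 =>
      intro f hf
      have hf1 := hf (0 : Fin 3)
      have hf2 := hf (1 : Fin 3)
      have hf3 := hf (2 : Fin 3)
      change ∑ j : Fin 3, f j * Mx 1 j (0 : Fin 3) = 0 at hf1
      change ∑ j : Fin 3, f j * Mx 1 j (1 : Fin 3) = 0 at hf2
      change ∑ j : Fin 3, f j * Mx 1 j (2 : Fin 3) = 0 at hf3
      rw [Fin.sum_univ_three] at hf1 hf2 hf3
      change f (0 : Fin 3) * (X - 1) + f (1 : Fin 3) * (T - 1) + f (2 : Fin 3) * 0 = 0 at hf1
      change f (0 : Fin 3) * -(Z - 1) + f (1 : Fin 3) * 0 + f (2 : Fin 3) * (T + Xi) = 0 at hf2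
      change f (0 : Fin 3) * 0 + f (1 : Fin 3) * (1 - Z) + f (2 : Fin 3) * (1 - Xi) = 0 at hf3
      obtain ⟨g, h1, h2, h3⟩ := exF2 (e1 := f (0 : Fin 3)) (e2 := f (1 : Fin 3)) (e3 := f (2 : Fin 3))
        (by linear_combination (norm := noncomm_ring) hf1)
        (by linear_combination (norm := noncomm_ring) hf2)
        (by linear_combination (norm := noncomm_ring) hf3)
      refine ⟨vec (n := 1) ![g], ?_⟩
      intro (j : Fin 3)
      change f j = ∑ i : Fin 1, vec (n := 1) ![g] i * Mx 2 i j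
      rw [Fin.sum_univ_one]
      fin_cases j
      · exact h1
      · exact h2
      · exact h3
    | 2 =>
      intro f hf
      have hf1 := hf (2 : Fin 3)
      change ∑ j : Fin 1, f j * Mx 2 j (2 : Fin 3) = 0 at hf1
      rw [Fin.sum_univ_one] at hf1
      have h := exF3 (f := f (0 : Fin 1)) hf1
      refine ⟨0, ?_⟩
      intro (j : Fin 1)
      rw [Subsingleton.elim j 0]
      change f (0 : Fin 1) = ∑ i : Fin 0, _
      rw [Fin.sum_univ_zero]
      exact h
    | n + 3 =>
      intro f hf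
      refine ⟨0, ?_⟩
      intro j
      exact Fin.elim0 j

lemma augs_single (g : Fl) (r : ℤ) : augs (MonoidAlgebra.single g r) = r * sg g.c := by
  rw [augs_apply, τ_single, aug_single]

lemma augs_mul (r s : R) : augs (r * s) = augs r * augs s := by
  rw [augs_apply, map_mul, aug_mul]; rfl

theorem H0 : Subsingleton (groupCohomology (RG Fl) 0) := by
  apply coh_zero good
  intro x hx
  have h := hx (0 : Fin 3)
  change ∑ j : Fin 1, Mx 0 (0 : Fin 3) j * x j = 0 at h
  rw [Fin.sum_univ_one] at h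
  intro (i : Fin 1)
  rw [Subsingleton.elim i 0]
  exact ll1 h

theorem H1 : Subsingleton (groupCohomology (RG Fl) 1) := by
  apply coh_succ good 0
  intro x hx
  have h1 := hx (0 : Fin 3)
  have h2 := hx (1 : Fin 3)
  change ∑ j : Fin 3, Mx 1 (0 : Fin 3) j * x j = 0 at h1
  change ∑ j : Fin 3, Mx 1 (1 : Fin 3) j * x j = 0 at h2
  rw [Fin.sum_univ_three] at h1 h2
  change (X - 1) * x (0 : Fin 3) + -(Z - 1) * x (1 : Fin 3) + 0 * x (2 : Fin 3) = 0 at h1
  change (T - 1) * x (0 : Fin 3) + 0 * x (1 : Fin 3) + (1 - Z) * x (2 : Fin 3) = 0 at h2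
  obtain ⟨m, e1, e2, e3⟩ := coC1 (a := x (0 : Fin 3)) (b := x (1 : Fin 3))
    (c := x (2 : Fin 3))
    (by linear_combination (norm := noncomm_ring) h1)
    (by linear_combination (norm := noncomm_ring) h2)
  refine ⟨(fun _ : Fin 1 => m), ?_⟩
  intro (i : Fin 3)
  change ∑ j : Fin 1, Mx 0 i j * m = x i
  rw [Fin.sum_univ_one]
  fin_cases i
  · exact e1.symm
  · exact e2.symm
  · exact e3.symm

theorem H2 : Subsingleton (groupCohomology (RG Fl) 2) := by
  apply coh_succ good 1
  intro x hx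
  have h1 := hx (0 : Fin 1)
  change ∑ j : Fin 3, Mx 2 (0 : Fin 1) j * x j = 0 at h1
  rw [Fin.sum_univ_three] at h1
  obtain ⟨a, b, c, e1, e2, e3⟩ := coC2 (e1 := x (0 : Fin 3)) (e2 := x (1 : Fin 3))
    (e3 := x (2 : Fin 3)) h1
  refine ⟨(![a, b, c] : Fin 3 → R), ?_⟩
  intro (i : Fin 3)
  change ∑ j : Fin 3, Mx 1 i j * (![a, b, c] : Fin 3 → R) j = x i
  rw [Fin.sum_univ_three]
  fin_cases i
  · change (X - 1) * a + -(Z - 1) * b + 0 * c = x (0 : Fin 3)
    linear_combination (norm := noncomm_ring) -e1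
  · change (T - 1) * a + 0 * b + (1 - Z) * c = x (1 : Fin 3)
    linear_combination (norm := noncomm_ring) -e2
  · change 0 * a + (T + Xi) * b + (1 - Xi) * c = x (2 : Fin 3)
    linear_combination (norm := noncomm_ring) -e3

theorem H3 : Nonempty (groupCohomology (RG Fl) 3 ≃+ ℤ) := by
  apply coh_top good 2 rfl (augs.comp (Pi.evalAddMonoidHom (fun _ : Fin 1 => R) 0))
  · intro c
    refine ⟨fun _ => MonoidAlgebra.single 1 c, ?_⟩
    change augs (MonoidAlgebra.single 1 c) = c
    rw [augs_single]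
    simp
  · intro x
    change augs (x (0 : Fin 1)) = 0 ↔ _
    constructor
    · intro h
      obtain ⟨e1, e2, e3, he⟩ := coC3 h
      refine ⟨(![e1, e2, e3] : Fin 3 → R), ?_⟩
      intro (i : Fin 1)
      rw [Subsingleton.elim i 0]
      change ∑ j : Fin 3, Mx 2 (0 : Fin 1) j * (![e1, e2, e3] : Fin 3 → R) j = x (0 : Fin 1)
      rw [Fin.sum_univ_three]
      exact he.symm
    · rintro ⟨y, hy⟩
      have h := hy (0 : Fin 1)
      change ∑ j : Fin 3, Mx 2 (0 : Fin 1) j * y j = x (0 : Fin 1) at h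
      rw [← h, Fin.sum_univ_three, map_add, map_add, augs_mul, augs_mul, augs_mul]
      change augs (T + Xi) * _ + augs (1 - Xi) * _ + augs (Z - 1) * _ = 0
      have a1 : augs (T + Xi) = 0 := by
        rw [map_add, T, Xi, el, el, augs_single, augs_single]; simp
      have a2 : augs (1 - Xi) = 0 := by
        rw [map_sub, Xi, el, show (1 : R) = MonoidAlgebra.single 1 1 from rfl, augs_single,
          augs_single]; simp
      have a3 : augs (Z - 1) = 0 := by
        rw [map_sub, Z, el, show (1 : R) = MonoidAlgebra.single 1 1 from rfl, augs_single,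
          augs_single]; simp
      rw [a1, a2, a3]; ring

theorem pd3 : PD 3 Fl := by
  refine ⟨fp good 3 ?_, ?_, H3⟩
  · intro i hi
    match i, hi with
    | i + 4, _ => rfl
  · intro i hi
    match i, hi with
    | 0, _ => exact H0
    | 1, _ => exact H1
    | 2, _ => exact H2
    | i + 4, _ => exact coh_high good (i + 3) rfl

end Pool.Agent.H55R2.Flat
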