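import Mathlib

/-! Groups in which squares commute do not split over a non-normal subgroup. -/

set_option autoImplicit false

namespace Pool.Agent.H55R2.NoSplit

open Monoid

section amalgam

variable {A : Bool → Type} [∀ b, Group (A b)] {C : Type} [Group C] (φ : ∀ b, C →* A b)

/-- In an amalgam in which squares commute the amalgamated subgroup is normal. -/
lemma amalg_conj (hφ : ∀ b, Function.Injective (φ b)) (hs : ∀ b, ¬ Function.Surjective (φ b))
    (hsq : ∀ u v : PushoutI φ, (u * u) * (v * v) = (v * v) * (u * u)) (i : Bool) (a : A i)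
    (c : C) : a⁻¹ * φ i c * a ∈ (φ i).range := by
  by_contra hc
  have ha : a ∉ (φ i).range := by
    intro h
    exact hc (mul_mem (mul_mem (inv_mem h) ⟨c, rfl⟩) h)
  obtain ⟨b, hb⟩ : ∃ b : A (!i), b ∉ (φ (!i)).range := by
    by_contra hcon
    push Not at hcon
    exact hs (!i) (fun x => hcon x)
  have hai : a⁻¹ ∉ (φ i).range := fun h => ha (by simpa using inv_mem h)
  have hbi : b⁻¹ ∉ (φ (!i)).range := fun h => hb (by simpa using inv_mem h)
  have hac : a⁻¹ * (φ i c)⁻¹ ∉ (φ i).range := by
    intro h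
    have := mul_mem h (⟨c, rfl⟩ : φ i c ∈ (φ i).range)
    rw [inv_mul_cancel_right] at this
    exact hai this
  have hbc : b * (φ (!i) c)⁻¹ ∉ (φ (!i)).range := by
    intro h
    have := mul_mem h (⟨c, rfl⟩ : φ (!i) c ∈ (φ (!i)).range)
    rw [inv_mul_cancel_right] at this
    exact hb this
  have hbc' : b * (φ (!i) c) ∉ (φ (!i)).range := by
    intro h
    have := mul_mem h (inv_mem (⟨c, rfl⟩ : φ (!i) c ∈ (φ (!i)).range))
    rw [mul_inv_cancel_right] at this
    exact hb this
  have hne : ∀ {j : Bool} {x : A j}, x ∉ (φ j).range → x ≠ 1 := by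
    rintro j x hx rfl
    exact hx (one_mem _)
  have hni : i ≠ !i := by cases i <;> simp
  have hni' : (!i) ≠ i := by cases i <;> simp
  -- the word
  let w : CoprodI.Word A :=
    { toList := [⟨!i, b⁻¹⟩, ⟨i, a⁻¹⟩, ⟨!i, b⁻¹⟩, ⟨i, a⁻¹ * (φ i c)⁻¹⟩, ⟨!i, b⁻¹⟩, ⟨i, a⁻¹⟩,
        ⟨!i, b⁻¹⟩, ⟨i, a⁻¹ * φ i c * a⟩, ⟨!i, b⟩, ⟨i, a⟩, ⟨!i, b * (φ (!i) c)⁻¹⟩, ⟨i, a⟩, ⟨!i, b⟩,
        ⟨i, a⟩, ⟨!i, b * φ (!i) c⟩]
      ne_one := by
        intro l hl
        simp only [List.mem_cons, List.not_mem_nil, or_false] at hl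
        rcases hl with rfl | rfl | rfl | rfl | rfl | rfl | rfl | rfl | rfl | rfl | rfl | rfl |
          rfl | rfl | rfl
        exacts [hne hbi, hne hai, hne hbi, hne hac, hne hbi, hne hai, hne hbi, hne hc, hne hb,
          hne ha, hne hbc, hne ha, hne hb, hne ha, hne hbc']
      chain_ne := by
        simp [List.isChain_cons_cons, hni, hni'] }
  have hred : PushoutI.Reduced φ w := by
    intro l hl
    simp only [w, List.mem_cons, List.not_mem_nil, or_false] at hl
    rcases hl with rfl | rfl | rfl | rfl | rfl | rfl | rfl | rfl | rfl | rfl | rfl | rfl |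
          rfl | rfl | rfl
    exacts [hbi, hai, hbi, hac, hbi, hai, hbi, hc, hb, ha, hbc, ha, hb, ha, hbc']
  have hprod : PushoutI.ofCoprodI (φ := φ) w.prod = 1 := by
    have h1 := hsq (PushoutI.of (φ := φ) i a * PushoutI.of (φ := φ) (!i) b)
      ((PushoutI.base φ c)⁻¹ * (PushoutI.of (φ := φ) i a * PushoutI.of (φ := φ) (!i) b) *
        PushoutI.base φ c)
    have e1 : PushoutI.of (φ := φ) i (φ i c) = PushoutI.base φ c :=
      PushoutI.of_apply_eq_base φ i c
    have e2 : PushoutI.of (φ := φ) (!i) (φ (!i) c) = PushoutI.base φ c :=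
      PushoutI.of_apply_eq_base φ (!i) c
    simp only [w, CoprodI.Word.prod, List.map_cons, List.map_nil, List.prod_cons, List.prod_nil,
      map_mul, PushoutI.ofCoprodI_of, map_inv, e1, e2, map_one]
    generalize PushoutI.of (φ := φ) i a = x at *
    generalize PushoutI.of (φ := φ) (!i) b = y at *
    generalize PushoutI.base φ c = z at *
    have h2 : ((z⁻¹ * (x * y) * z) * (z⁻¹ * (x * y) * z) * ((x * y) * (x * y)))⁻¹ *
      (((x * y) * (x * y)) * ((z⁻¹ * (x * y) * z) * (z⁻¹ * (x * y) * z))) = 1 := by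
      rw [h1]; group
    refine Eq.trans ?_ h2
    group
  have h3 := PushoutI.Reduced.eq_empty_of_mem_range hφ hred (by rw [hprod]; exact one_mem _)
  have h4 := congrArg (fun w => w.toList.length) h3
  simp [w, CoprodI.Word.empty] at h4

lemma amalg_normal (hφ : ∀ b, Function.Injective (φ b)) (hs : ∀ b, ¬ Function.Surjective (φ b))
    (hsq : ∀ u v : PushoutI φ, (u * u) * (v * v) = (v * v) * (u * u)) :
    (PushoutI.base φ).range.Normal := by
  have key : ∀ g : PushoutI φ, ∀ c : C,
      g⁻¹ * PushoutI.base φ c * g ∈ (PushoutI.base φ).range := by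
    intro g
    induction g using PushoutI.induction_on with
    | of i a =>
      intro c
      obtain ⟨d, hd⟩ := amalg_conj φ hφ hs hsq i a c
      refine ⟨d, ?_⟩
      rw [← PushoutI.of_apply_eq_base φ i, ← PushoutI.of_apply_eq_base φ i, hd]
      simp
    | base c' =>
      intro c
      exact ⟨c'⁻¹ * c * c', by simp⟩
    | mul x y hx hy =>
      intro c
      obtain ⟨d, hd⟩ := hx c
      obtain ⟨e, he⟩ := hy d
      refine ⟨e, ?_⟩
      rw [he, hd]
      group
  refine ⟨?_⟩
  rintro _ ⟨c, rfl⟩ g
  simpa using key g⁻¹ c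

end amalgam

section hnn

variable {A : Type} [Group A] (C D : Subgroup A) (φ : C ≃* D)

/-- In an HNN extension in which squares commute the associated subgroup is the base. -/
lemma hnn_top (hsq : ∀ u v : HNNExtension A C D φ, (u * u) * (v * v) = (v * v) * (u * u)) :
    C = ⊤ := by
  by_contra hC
  obtain ⟨y, hy⟩ : ∃ y, y ∉ C := by
    by_contra hcon
    push Not at hcon
    exact hC (eq_top_iff.2 fun x _ => hcon x)
  let w : HNNExtension.NormalWord.ReducedWord A C D :=
    { head := 1
      toList := [(1, 1), (1, 1), (1, y), (1, y), (-1, 1), (-1, y⁻¹), (-1, y⁻¹), (-1, 1)]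
      chain := by
        simp [List.isChain_cons_cons, hy] }
  have hprod : w.prod φ = 1 := by
    have h1 := hsq HNNExtension.t (HNNExtension.t * HNNExtension.of y)
    simp only [w, HNNExtension.NormalWord.ReducedWord.prod, List.map_cons, List.map_nil,
      List.prod_cons, List.prod_nil, map_one, map_inv, mul_one, one_mul, Units.val_one, zpow_one,
      Units.val_neg, zpow_neg]
    generalize (HNNExtension.t : HNNExtension A C D φ) = x at *
    generalize (HNNExtension.of y : HNNExtension A C D φ) = y' at *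
    have h2 : (x * x * (x * y' * (x * y'))) * ((x * y' * (x * y')) * (x * x))⁻¹ = 1 := by
      rw [h1]; group
    refine Eq.trans ?_ h2
    group
  have h3 := HNNExtension.ReducedWord.toList_eq_nil_of_mem_of_range φ w (by
    rw [hprod]; exact one_mem _)
  simp [w] at h3

/-- the stable letter is not in the base -/
lemma t_not_mem : (HNNExtension.t : HNNExtension A C D φ) ∉
    (HNNExtension.of : A →* HNNExtension A C D φ).range := by
  rintro ⟨a, ha⟩
  let F : HNNExtension A C D φ →* Multiplicative ℤ :=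
    HNNExtension.lift 1 (Multiplicative.ofAdd 1) (by intro a; simp)
  have h := congrArg F ha
  simp only [F, HNNExtension.lift_of, HNNExtension.lift_t, MonoidHom.one_apply] at h
  have := congrArg Multiplicative.toAdd h
  simp at this

end hnn

end Pool.Agent.H55R2.NoSplit
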