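import Pool.Agent.H55R2.Flat
import Pool.Agent.H55R2.Gen

/-! A self-normalising subgroup `ℤ²` of the group of `Kb × S¹`. -/

set_option autoImplicit false

namespace Pool.Agent.H55R2.Torus

open Pool.Agent.Helper294.PD3Nil (Good ag ag_zero ag_add ag_mul ag_single
  sh sh_apply sh_single sh_injective sh_ker' map_sh map_sh_comm q3 q2 ex_three sg sg_add sg_zero
  sg_one sg_mul_self sg_neg)
open Finsupp Pool.Agent.H55R2.Gen Pool.Agent.H55R2.Flat

/-- the subgroup generated by `z` and `t` -/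
def KK : Subgroup Fl where
  carrier := {g | g.b = 0}
  one_mem' := rfl
  mul_mem' := by
    rintro x y (h1 : x.b = 0) (h2 : y.b = 0)
    change (x * y).b = 0
    simp [h1, h2]
  inv_mem' := by
    rintro x (h : x.b = 0)
    change (x⁻¹).b = 0
    simp [h]

lemma mem_KK {g : Fl} : g ∈ KK ↔ g.b = 0 := Iff.rfl

def zk : KK := ⟨zz, rfl⟩
def tk : KK := ⟨tt, rfl⟩

abbrev RK : Type := MonoidAlgebra ℤ KK

lemma kk_ext {s u : KK} (h1 : (s : Fl).c = (u : Fl).c) (h2 : (s : Fl).a = (u : Fl).a) : s = u :=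
  Subtype.ext (Fl.ext h2 (s.2.trans u.2.symm) h1)

lemma kk_comm (g h : KK) : g * h = h * g := by
  apply kk_ext
  · simp [add_comm]
  · simp [add_comm]

lemma rk_comm (r s : RK) : r * s = s * r := by
  induction r using MonoidAlgebra.induction_linear with
  | zero => simp
  | add x y hx hy => rw [add_mul, hx, hy, mul_add]
  | single g r =>
    induction s using MonoidAlgebra.induction_linear with
    | zero => simp
    | add x y hx hy => rw [mul_add, hx, hy, add_mul]
    | single h s => rw [MonoidAlgebra.single_mul_single, MonoidAlgebra.single_mul_single,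
        kk_comm, mul_comm]

/-- group elements in the group ring -/
noncomputable def ek (g : KK) : RK := MonoidAlgebra.single g 1

lemma ek_mul (g h : KK) : ek g * ek h = ek (g * h) := by
  simp [ek, MonoidAlgebra.single_mul_single]

lemma ek_one : ek 1 = 1 := rfl

lemma coeff_mul_ek (g : KK) (m : RK) : (m * ek g).coeff = mapDomain (fun h => h * g) m.coeff := by
  induction m using MonoidAlgebra.induction_linear with
  | zero => simp
  | add x y hx hy => rw [add_mul, MonoidAlgebra.coeff_add, hx, hy, MonoidAlgebra.coeff_add, mapDomain_add]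
  | single h r => simp [ek, MonoidAlgebra.single_mul_single, mapDomain_single]

lemma coeff_drk (g : KK) (m : RK) : (m * (ek g - 1)).coeff = sh (fun h => h * g) m.coeff := by
  rw [mul_sub, mul_one, sh_apply, ← coeff_mul_ek]; rfl

lemma ek_ext {m n : RK} (h : m.coeff = n.coeff) : m = n := MonoidAlgebra.coeff_inj.1 h

/-- projection to the last coordinate -/
noncomputable def p1 : RK →+ (ℤ →₀ ℤ) :=
  (mapDomain.addMonoidHom (fun g : KK => (g : Fl).c)).comp MonoidAlgebra.coeffAddEquiv.toAddMonoidHom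

lemma p1_apply (m : RK) : p1 m = mapDomain (fun g : KK => (g : Fl).c) m.coeff := rfl

lemma p1_surj : Function.Surjective p1 := by
  intro m
  refine ⟨MonoidAlgebra.ofCoeff (mapDomain (fun c : ℤ => (⟨⟨0, 0, c⟩, rfl⟩ : KK)) m), ?_⟩
  rw [p1_apply, MonoidAlgebra.coeff_ofCoeff, ← mapDomain_comp]
  exact mapDomain_id

noncomputable def Zk : RK := ek zk
noncomputable def Tk : RK := ek tk

lemma J1 : (Tk - 1) * (Zk - 1) + (1 - Zk) * (Tk - 1) = 0 := by
  linear_combination (norm := noncomm_ring) rk_comm Tk Zk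

/-! ### right multiplication -/

lemma rk1 {m : RK} (h : m * (Zk - 1) = 0) : m = 0 := by
  apply ek_ext
  apply sh_injective (fun h => h * zk) (mul_left_injective zk) (fun g => (g : Fl).a)
    (by intro s; simp [zk])
  rw [← coeff_drk]
  change (m * (Zk - 1)).coeff = _
  rw [h]; simp

lemma rk_ker {m : RK} (h : p1 m = 0) : ∃ k, m = k * (Zk - 1) := by
  obtain ⟨k, hk⟩ := sh_ker' (Equiv.mulRight zk) (fun g : KK => (g : Fl).c)
    (fun c => (⟨⟨0, 0, c⟩, rfl⟩ : KK))
    (fun g => (g : Fl).a)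
    (by intro s; simp [zk])
    (by intro s; simp [zk]) (fun _ => by simp) (fun _ => rfl)
    (by
      intro s u h1 h2
      exact kk_ext h1 h2) m.coeff h
  refine ⟨MonoidAlgebra.ofCoeff k, ek_ext ?_⟩
  rw [Zk, coeff_drk]
  exact hk.symm

lemma p1_mul_Z (m : RK) : p1 (m * (Zk - 1)) = 0 := by
  rw [p1_apply, Zk, coeff_drk]
  exact map_sh _ _ (by intro s; simp [zk]) _

lemma p1_mul_T (m : RK) : p1 (m * (Tk - 1)) = sh (fun c => c + 1) (p1 m) := by
  rw [p1_apply, Tk, coeff_drk]
  exact map_sh_comm _ _ _ (by intro s; simp [tk]) _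

lemma sh_one_injective : Function.Injective (sh (fun c : ℤ => c + 1)) :=
  sh_injective _ (add_left_injective 1) (fun c => c) (fun _ => rfl)

lemma rk2 {m n : RK} (h : m * (Tk - 1) = n * (Zk - 1)) : ∃ k, m = k * (Zk - 1) := by
  apply rk_ker
  apply sh_one_injective
  rw [← p1_mul_T, h, p1_mul_Z, map_zero]

/-- the augmentation -/
noncomputable def augk : RK →+ ℤ := q3.comp p1

lemma augk_single (g : KK) (r : ℤ) : augk (MonoidAlgebra.single g r) = r := by
  simp [augk, p1_apply, Pool.Agent.Helper294.PD3Nil.q3_apply, mapDomain_single]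

lemma rk3 {m : RK} (h : augk m = 0) : ∃ a c, m = a * (Zk - 1) + c * (Tk - 1) := by
  obtain ⟨u, hu⟩ := ex_three (p1 m) h
  obtain ⟨v, rfl⟩ := p1_surj u
  obtain ⟨k, hk⟩ := rk_ker (m := m - v * (Tk - 1)) (by rw [map_sub, p1_mul_T, hu, sub_self])
  exact ⟨k, v, by rw [← hk]; abel⟩

lemma exK1 {a c : RK} (h : a * (Zk - 1) + c * (Tk - 1) = 0) :
    ∃ e, a = e * (Tk - 1) ∧ c = e * (1 - Zk) := by
  obtain ⟨c1, hc⟩ := rk2 (m := c) (n := -a) (by linear_combination (norm := noncomm_ring) h)
  have hc' : c = (-c1) * (1 - Zk) := by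
    linear_combination (norm := noncomm_ring) hc
  refine ⟨-c1, ?_, hc'⟩
  have h1 : a - (-c1) * (Tk - 1) = 0 := by
    apply rk1
    linear_combination (norm := noncomm_ring) h - hc' * (Tk - 1) - (-c1) * J1
  linear_combination (norm := noncomm_ring) h1

/-- ranks of the free modules -/
def mk : ℕ → ℕ
  | 0 => 1
  | 1 => 2
  | 2 => 1
  | _ + 3 => 0

/-- the matrices of the differentials -/
noncomputable def Mk : ∀ n, Fin (mk (n + 1)) → Fin (mk n) → RK
  | 0 => ![![Zk - 1], ![Tk - 1]]
  | 1 => ![![Tk - 1, 1 - Zk]]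
  | _ + 2 => fun i => Fin.elim0 i

lemma ag_eqk (r : RK) : ag ℤ KK r = augk r := by
  induction r using MonoidAlgebra.induction_linear with
  | zero => simp [ag_zero]
  | add x y hx hy => rw [ag_add, hx, hy, map_add]
  | single g r => rw [ag_single, augk_single]

lemma augk_one : augk 1 = 1 := augk_single 1 1

lemma augk_mul (r s : RK) : augk (r * s) = augk r * augk s := by
  rw [← ag_eqk, ag_mul, ag_eqk, ag_eqk]

lemma aZk : augk (Zk - 1) = 0 := by rw [map_sub, augk_one, Zk, ek, augk_single, sub_self]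
lemma aTk : augk (Tk - 1) = 0 := by rw [map_sub, augk_one, Tk, ek, augk_single, sub_self]
lemma aZk' : augk (1 - Zk) = 0 := by rw [map_sub, augk_one, Zk, ek, augk_single, sub_self]

/-- vector to finsupp -/
noncomputable def vek {n : ℕ} (f : Fin n → RK) : Fin n →₀ RK := Finsupp.equivFunOnFinite.symm f

lemma goodK : Good mk Mk where
  hA := by
    intro n
    match n with
    | 0 =>
      intro (i : Fin 1) (l : Fin 1)
      change ∑ j : Fin 2, Mk 1 i j * Mk 0 j l = 0
      rw [Fin.sum_univ_two]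
      fin_cases l
      fin_cases i
      exact J1
    | 1 => intro i; exact Fin.elim0 i
    | n + 2 => intro i; exact Fin.elim0 i
  h0 := by
    intro (i : Fin 2)
    change ∑ j : Fin 1, ag ℤ KK (Mk 0 i j) = 0
    rw [Fin.sum_univ_one, ag_eqk]
    fin_cases i
    · exact aZk
    · exact aTk
  hε := by
    intro x
    refine ⟨vek (n := 1) ![MonoidAlgebra.single 1 x], ?_⟩
    change ∑ i : Fin 1, ag ℤ KK (vek (n := 1) ![MonoidAlgebra.single 1 x] i) = x
    rw [Fin.sum_univ_one, ag_eqk]
    exact augk_single 1 x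
  hex0 := by
    intro f hf
    change ∑ i : Fin 1, ag ℤ KK (f i) = 0 at hf
    rw [Fin.sum_univ_one, ag_eqk] at hf
    obtain ⟨a, b, h⟩ := rk3 hf
    refine ⟨vek (n := 2) ![a, b], ?_⟩
    intro (j : Fin 1)
    change f j = ∑ i : Fin 2, vek (n := 2) ![a, b] i * Mk 0 i j
    rw [Fin.sum_univ_two]
    fin_cases j
    exact h
  hex := by
    intro n
    match n with
    | 0 =>
      intro f hf
      have hf := hf (0 : Fin 1)
      change ∑ j : Fin 2, f j * Mk 0 j (0 : Fin 1) = 0 at hf
      rw [Fin.sum_univ_two] at hf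
      obtain ⟨e, h1, h2⟩ := exK1 hf
      refine ⟨vek (n := 1) ![e], ?_⟩
      intro (j : Fin 2)
      change f j = ∑ i : Fin 1, vek (n := 1) ![e] i * Mk 1 i j
      rw [Fin.sum_univ_one]
      fin_cases j
      · exact h1
      · exact h2
    | 1 =>
      intro f hf
      have hf1 := hf (1 : Fin 2)
      change ∑ j : Fin 1, f j * Mk 1 j (1 : Fin 2) = 0 at hf1
      rw [Fin.sum_univ_one] at hf1
      have hf2 : f (0 : Fin 1) * (1 - Zk) = 0 := hf1
      have h : f (0 : Fin 1) = 0 := rk1 (by linear_combination (norm := noncomm_ring) -hf2)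
      refine ⟨0, ?_⟩
      intro (j : Fin 1)
      rw [Subsingleton.elim j 0]
      change f (0 : Fin 1) = ∑ i : Fin 0, _
      rw [Fin.sum_univ_zero]
      exact h
    | n + 2 =>
      intro f hf
      refine ⟨0, ?_⟩
      intro j
      exact Fin.elim0 j

/-! ### cohomology -/

theorem K0 : Subsingleton (groupCohomology (RG KK) 0) := by
  apply coh_zero goodK
  intro x hx
  have h := hx (0 : Fin 2)
  change ∑ j : Fin 1, Mk 0 (0 : Fin 2) j * x j = 0 at h
  rw [Fin.sum_univ_one] at h
  intro (i : Fin 1)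
  rw [Subsingleton.elim i 0]
  apply rk1
  rw [rk_comm]
  exact h

theorem K1 : Subsingleton (groupCohomology (RG KK) 1) := by
  apply coh_succ goodK 0
  intro x hx
  have h1 := hx (0 : Fin 1)
  change ∑ j : Fin 2, Mk 1 (0 : Fin 1) j * x j = 0 at h1
  rw [Fin.sum_univ_two] at h1
  change (Tk - 1) * x (0 : Fin 2) + (1 - Zk) * x (1 : Fin 2) = 0 at h1
  obtain ⟨e, h2, h3⟩ := exK1 (a := -x (1 : Fin 2)) (c := x (0 : Fin 2)) (by
    linear_combination (norm := noncomm_ring) h1 - rk_comm (Tk - 1) (x (0 : Fin 2)) -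
      rk_comm (1 - Zk) (x (1 : Fin 2)))
  refine ⟨(fun _ : Fin 1 => -e), ?_⟩
  intro (i : Fin 2)
  change ∑ j : Fin 1, Mk 0 i j * (-e) = x i
  rw [Fin.sum_univ_one]
  fin_cases i
  · change (Zk - 1) * (-e) = x (0 : Fin 2)
    linear_combination (norm := noncomm_ring) -h3 + rk_comm (Zk - 1) (-e)
  · change (Tk - 1) * (-e) = x (1 : Fin 2)
    linear_combination (norm := noncomm_ring) h2 + rk_comm (Tk - 1) (-e)

theorem K2 : Nonempty (groupCohomology (RG KK) 2 ≃+ ℤ) := by
  apply coh_top goodK 1 rfl (augk.comp (Pi.evalAddMonoidHom (fun _ : Fin 1 => RK) 0))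
  · intro c
    refine ⟨fun _ => MonoidAlgebra.single 1 c, ?_⟩
    change augk (MonoidAlgebra.single 1 c) = c
    rw [augk_single]
  · intro x
    change augk (x (0 : Fin 1)) = 0 ↔ _
    constructor
    · intro h
      obtain ⟨a, c, he⟩ := rk3 h
      refine ⟨(![c, -a] : Fin 2 → RK), ?_⟩
      intro (i : Fin 1)
      rw [Subsingleton.elim i 0]
      change ∑ j : Fin 2, Mk 1 (0 : Fin 1) j * (![c, -a] : Fin 2 → RK) j = x (0 : Fin 1)
      rw [Fin.sum_univ_two]
      change (Tk - 1) * c + (1 - Zk) * (-a) = x (0 : Fin 1)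
      linear_combination (norm := noncomm_ring) -he + rk_comm (Tk - 1) c + rk_comm (1 - Zk) (-a)
    · rintro ⟨y, hy⟩
      have h := hy (0 : Fin 1)
      change ∑ j : Fin 2, Mk 1 (0 : Fin 1) j * y j = x (0 : Fin 1) at h
      rw [← h, Fin.sum_univ_two, map_add, augk_mul, augk_mul]
      change augk (Tk - 1) * _ + augk (1 - Zk) * _ = 0
      rw [aTk, aZk']; ring

theorem pd2 : PD 2 KK := by
  refine ⟨fp goodK 2 ?_, ?_, K2⟩
  · intro i hi
    match i, hi with
    | i + 3, _ => rfl
  · intro i hi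
    match i, hi with
    | 0, _ => exact K0
    | 1, _ => exact K1
    | i + 3, _ => exact coh_high goodK (i + 2) rfl

/-! ### group theory -/

/-- the subgroup is free abelian of rank two -/
def isoZ2 : KK ≃* Multiplicative (ℤ × ℤ) where
  toFun g := Multiplicative.ofAdd ((g : Fl).a, (g : Fl).c)
  invFun p := ⟨⟨(Multiplicative.toAdd p).1, 0, (Multiplicative.toAdd p).2⟩, rfl⟩
  left_inv g := kk_ext rfl rfl
  right_inv p := rfl
  map_mul' g h := by
    simp only [Subgroup.coe_mul, Fl.mul_a, Fl.mul_c]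
    rfl

lemma mem_of_conj (g : Fl) (h : ∀ k ∈ KK, g * k * g⁻¹ ∈ KK) : g ∈ KK := by
  have h2 : (g * tt * g⁻¹).b = 0 := h tt rfl
  have e : (g * tt * g⁻¹).b = 2 * g.b := by
    have := sg_mul_self g.c
    simp [sg_add]
    linear_combination (g.b) * this
  rw [e] at h2
  rw [mem_KK]
  omega

lemma KK_normalizer : Subgroup.normalizer (KK : Set Fl) = KK := by
  apply le_antisymm _ Subgroup.le_normalizer
  intro g hg
  rw [Subgroup.mem_normalizer_iff] at hg
  exact mem_of_conj g fun k hk => (hg k).1 hk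

lemma pow_xx (n : ℕ) : xx ^ n = ⟨0, n, 0⟩ := by
  induction n with
  | zero => rfl
  | succ n ih => rw [pow_succ, ih]; ext <;> simp

lemma KK_index : ¬ KK.FiniteIndex := by
  intro h
  obtain ⟨n, hn, hx⟩ := Subgroup.exists_pow_mem_of_index_ne_zero h.index_ne_zero xx
  have h1 := hx.2
  rw [pow_xx, mem_KK] at h1
  simp at h1
  omega

/-- squares commute -/
lemma sq_comm (u v : Fl) : (u * u) * (v * v) = (v * v) * (u * u) := by
  have e1 := sg_mul_self u.c
  have e2 := sg_mul_self v.c
  ext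
  · simp only [Fl.mul_a]; ring
  · simp only [Fl.mul_b, Fl.mul_c, sg_add, e1, e2]; ring
  · simp only [Fl.mul_c]; ring

end Pool.Agent.H55R2.Torus
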